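import Pool.Agent.Y76.PC.VAlg

/-!
# The minimal number of generators of the subalgebra `A F d` is `d + 3`
-/

set_option autoImplicit false

namespace Pool.Agent.Y76.PC

open MvPolynomial Pool.Agent.H307R3.PC Pool.Agent.H307R3.PC.Core

variable {F : Type*} [Field F]

/-- `n` is the minimal number of generators of the algebra `B` -/
def MinGens (F B : Type*) [Field F] [CommRing B] [Algebra F B] (n : ℕ) : Prop :=
  (∃ a : Fin n → B, Algebra.adjoin F (Set.range a) = ⊤) ∧
    ∀ (m : ℕ) (a : Fin m → B), Algebra.adjoin F (Set.range a) = ⊤ → n ≤ m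

/-- the exponents which do not occur in elements of `A F d` -/
def Bd (a : Fin 6 →₀ ℕ) : Prop :=
  a ≠ 0 ∧ (a = Finsupp.single 4 1 ∨ (a 0 = 0 ∧ a 1 = 0 ∧ a 3 = 0 ∧ a 4 = 0))

lemma Bd.one {a : Fin 6 →₀ ℕ} (h : Bd a) : a 1 = 0 := by
  rcases h.2 with h | h
  · rw [h]; simp
  · exact h.2.1

lemma Bd.zero {a : Fin 6 →₀ ℕ} (h : Bd a) : a 0 = 0 := by
  rcases h.2 with h | h
  · rw [h]; simp
  · exact h.1

lemma Bd.three {a : Fin 6 →₀ ℕ} (h : Bd a) : a 3 = 0 := by
  rcases h.2 with h | h
  · rw [h]; simp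
  · exact h.2.2.1

lemma Bd.split {p q : Fin 6 →₀ ℕ} (h : Bd (p + q)) : Bd p ∨ Bd q := by
  by_cases hp : p = 0
  · right; rwa [hp, zero_add] at h
  by_cases hq : q = 0
  · left; rwa [hq, add_zero] at h
  rcases h.2 with h | ⟨h0, h1, h3, h4⟩
  · exfalso
    have h5 : ∀ i, i ≠ 4 → p i = 0 ∧ q i = 0 := by
      intro i hi
      have h6 := DFunLike.congr_fun h i
      rw [Finsupp.add_apply, Finsupp.single_eq_of_ne hi] at h6
      omega
    have h6 := DFunLike.congr_fun h 4
    rw [Finsupp.add_apply, Finsupp.single_eq_same] at h6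
    by_cases hp4 : p 4 = 0
    · apply hp
      ext i
      by_cases hi : i = 4
      · rw [hi, hp4]; rfl
      · rw [(h5 i hi).1]; rfl
    · apply hq
      ext i
      by_cases hi : i = 4
      · rw [hi]
        change q 4 = 0
        omega
      · rw [(h5 i hi).2]; rfl
  · left
    rw [Finsupp.add_apply] at h0 h1 h3 h4
    exact ⟨hp, Or.inr ⟨by omega, by omega, by omega, by omega⟩⟩

lemma coeff_X_mul_zero (i : Fin 6) (p : R6 F) {a : Fin 6 →₀ ℕ} (h : a i = 0) :
    coeff a (X i * p) = 0 := by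
  classical
  rw [coeff_X_mul', if_neg]
  rw [Finsupp.mem_support_iff, not_not]
  exact h

lemma coeff_ofNat_mul (n : ℕ) [n.AtLeastTwo] (p : R6 F) (a : Fin 6 →₀ ℕ) :
    coeff a ((OfNat.ofNat n : R6 F) * p) = (OfNat.ofNat n : F) * coeff a p := by
  have : (OfNat.ofNat n : R6 F) = C (OfNat.ofNat n : F) := rfl
  rw [this, coeff_C_mul]

lemma Bd_C1 {a : Fin 6 →₀ ℕ} (h : Bd a) : coeff a (C1 F) = 0 := by
  classical
  rw [C1, coeff_add, coeff_ofNat_mul, coeff_X_mul_zero 3 _ h.three, mul_zero, add_zero,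
    coeff_X_pow, if_neg]
  rintro rfl
  rcases h.2 with h | h
  · have := DFunLike.congr_fun h 4
    rw [Finsupp.single_eq_same, Finsupp.single_eq_same] at this
    omega
  · have := h.2.2.2
    rw [Finsupp.single_eq_same] at this
    omega

lemma Bd_C2 {a : Fin 6 →₀ ℕ} (h : Bd a) : coeff a (C2 F) = 0 := by
  rw [C2, coeff_add, coeff_ofNat_mul, coeff_add, coeff_X_mul_zero 1 _ h.one,
    coeff_X_mul_zero 0 _ h.zero, mul_comm (X 2), coeff_X_mul_zero 3 _ h.three, add_zero, mul_zero,
    add_zero]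

lemma Bd_mem {d : ℕ} {x : R6 F} (hx : x ∈ A F d) : ∀ a, Bd a → coeff a x = 0 := by
  classical
  induction hx using Algebra.adjoin_induction with
  | mem x hx =>
    obtain ⟨i, rfl⟩ := hx
    intro a ha
    rcases i with i | i
    · fin_cases i
      · exact Bd_C1 ha
      · exact Bd_C2 ha
    · exact coeff_X_mul_zero 1 _ ha.one
  | algebraMap c =>
    intro a ha
    change coeff a (C c) = 0
    rw [coeff_C, if_neg (Ne.symm ha.1)]
  | add x y _ _ hx hy =>
    intro a ha
    rw [coeff_add, hx a ha, hy a ha, add_zero]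
  | mul x y _ _ hx hy =>
    intro a ha
    rw [coeff_mul]
    apply Finset.sum_eq_zero
    rintro ⟨p, q⟩ hpq
    replace hpq := Finset.HasAntidiagonal.mem_antidiagonal.1 hpq
    dsimp only at hpq ⊢
    rw [← hpq] at ha
    rcases ha.split with h | h
    · rw [hx p h, zero_mul]
    · rw [hy q h, mul_zero]

/-- the exponents of the leading monomials of the generators -/
noncomputable def mu (d : ℕ) : Fin 2 ⊕ Fin (d + 1) → (Fin 6 →₀ ℕ) :=
  Sum.elim ![Finsupp.single 4 2, Finsupp.single 1 1 + Finsupp.single 4 1] fun i =>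
    Finsupp.single 1 1 + (Finsupp.single 5 (i : ℕ) + Finsupp.single 2 (d - i))

lemma mu_ne (d : ℕ) (i : Fin 2 ⊕ Fin (d + 1)) : mu d i ≠ 0 := by
  intro h
  rcases i with i | i
  · fin_cases i
    · have := DFunLike.congr_fun h 4
      change (Finsupp.single 4 2 : Fin 6 →₀ ℕ) 4 = 0 at this
      simp at this
    · have := DFunLike.congr_fun h 4
      change (Finsupp.single 1 1 + Finsupp.single 4 1 : Fin 6 →₀ ℕ) 4 = 0 at this
      simp at this
  · have := DFunLike.congr_fun h 1
    change (Finsupp.single 1 1 + (Finsupp.single 5 (i : ℕ) + Finsupp.single 2 (d - i)) :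
      Fin 6 →₀ ℕ) 1 = 0 at this
    simp at this

lemma mu_split (d : ℕ) (i : Fin 2 ⊕ Fin (d + 1)) {p q : Fin 6 →₀ ℕ} (h : p + q = mu d i)
    (hp : p ≠ 0) (hq : q ≠ 0) : Bd p ∨ Bd q := by
  have hap : ∀ j, p j + q j = mu d i j := fun j => by
    rw [← h, Finsupp.add_apply]
  rcases i with i | i
  · fin_cases i
    · -- `2 [4]`
      have h0 : ∀ j, j ≠ 4 → p j = 0 ∧ q j = 0 := by
        intro j hj
        have h1 := hap j
        have h2 : mu d (Sum.inl 0) j = 0 := by
          change (Finsupp.single 4 2 : Fin 6 →₀ ℕ) j = 0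
          rw [Finsupp.single_eq_of_ne hj]
        have h3 : p j + q j = 0 := h1.trans h2
        omega
      have h4 : p 4 + q 4 = 2 := by
        have h1 := hap 4
        have h2 : mu d (Sum.inl 0) 4 = 2 := by
          change (Finsupp.single 4 2 : Fin 6 →₀ ℕ) 4 = 2
          rw [Finsupp.single_eq_same]
        exact h1.trans h2
      have hp4 : p 4 ≠ 0 := by
        intro h5
        apply hp
        ext j
        by_cases hj : j = 4
        · rw [hj, h5]; rfl
        · rw [(h0 j hj).1]; rfl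
      have hq4 : q 4 ≠ 0 := by
        intro h5
        apply hq
        ext j
        by_cases hj : j = 4
        · rw [hj, h5]; rfl
        · rw [(h0 j hj).2]; rfl
      left
      refine ⟨hp, Or.inl ?_⟩
      ext j
      by_cases hj : j = 4
      · rw [hj, Finsupp.single_eq_same]; omega
      · rw [(h0 j hj).1, Finsupp.single_eq_of_ne hj]
    · -- `[1] + [4]`
      have h0 : ∀ j, j ≠ 4 → j ≠ 1 → p j = 0 ∧ q j = 0 := by
        intro j hj hj'
        have h1 := hap j
        have h2 : mu d (Sum.inl 1) j = 0 := by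
          change (Finsupp.single 1 1 + Finsupp.single 4 1 : Fin 6 →₀ ℕ) j = 0
          rw [Finsupp.add_apply, Finsupp.single_eq_of_ne hj, Finsupp.single_eq_of_ne hj']
          rfl
        have h3 : p j + q j = 0 := h1.trans h2
        omega
      have h4 : p 4 + q 4 = 1 := by
        have h1 := hap 4
        have h2 : mu d (Sum.inl 1) 4 = 1 := by
          change (Finsupp.single 1 1 + Finsupp.single 4 1 : Fin 6 →₀ ℕ) 4 = 1
          simp
        exact h1.trans h2
      have h1 : p 1 + q 1 = 1 := by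
        have h1 := hap 1
        have h2 : mu d (Sum.inl 1) 1 = 1 := by
          change (Finsupp.single 1 1 + Finsupp.single 4 1 : Fin 6 →₀ ℕ) 1 = 1
          simp
        exact h1.trans h2
      by_cases hp4 : p 4 = 0
      · right
        refine ⟨hq, Or.inl ?_⟩
        have hp1 : p 1 ≠ 0 := by
          intro h5
          apply hp
          ext j
          by_cases hj : j = 4
          · rw [hj, hp4]; rfl
          by_cases hj' : j = 1
          · rw [hj', h5]; rfl
          · rw [(h0 j hj hj').1]; rfl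
        ext j
        by_cases hj : j = 4
        · rw [hj, Finsupp.single_eq_same]; omega
        by_cases hj' : j = 1
        · rw [hj', Finsupp.single_eq_of_ne (by decide)]; omega
        · rw [(h0 j hj hj').2, Finsupp.single_eq_of_ne hj]
      · left
        refine ⟨hp, Or.inl ?_⟩
        have hq1 : q 1 ≠ 0 := by
          intro h5
          apply hq
          ext j
          by_cases hj : j = 4
          · rw [hj]
            change q 4 = 0
            omega
          by_cases hj' : j = 1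
          · rw [hj', h5]; rfl
          · rw [(h0 j hj hj').2]; rfl
        ext j
        by_cases hj : j = 4
        · rw [hj, Finsupp.single_eq_same]; omega
        by_cases hj' : j = 1
        · rw [hj', Finsupp.single_eq_of_ne (by decide)]; omega
        · rw [(h0 j hj hj').1, Finsupp.single_eq_of_ne hj]
  · have hmu : ∀ j, mu d (Sum.inr i) j = (Finsupp.single 1 1 +
        (Finsupp.single 5 (i : ℕ) + Finsupp.single 2 (d - i)) : Fin 6 →₀ ℕ) j := fun _ => rfl
    have e0 : p 0 + q 0 = 0 := by rw [hap, hmu]; simp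
    have e1 : p 1 + q 1 = 1 := by rw [hap, hmu]; simp
    have e3 : p 3 + q 3 = 0 := by rw [hap, hmu]; simp
    have e4 : p 4 + q 4 = 0 := by rw [hap, hmu]; simp
    by_cases hp1 : p 1 = 0
    · exact Or.inl ⟨hp, Or.inr ⟨by omega, hp1, by omega, by omega⟩⟩
    · exact Or.inr ⟨hq, Or.inr ⟨by omega, by omega, by omega, by omega⟩⟩

/-- the coefficients at `mu` are point derivations of `A F d` -/
lemma coeff_mu_mul {d : ℕ} (i : Fin 2 ⊕ Fin (d + 1)) {x y : R6 F} (hx : x ∈ A F d)
    (hy : y ∈ A F d) :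
    coeff (mu d i) (x * y) = coeff 0 x * coeff (mu d i) y + coeff (mu d i) x * coeff 0 y := by
  classical
  rw [coeff_mul]
  have hne : ((0 : Fin 6 →₀ ℕ), mu d i) ≠ (mu d i, 0) := by
    intro h
    exact mu_ne d i (congrArg Prod.fst h).symm
  rw [← Finset.sum_subset (s₁ := {((0 : Fin 6 →₀ ℕ), mu d i), (mu d i, 0)})]
  · rw [Finset.sum_pair hne]
  · intro a ha
    rw [Finset.mem_insert, Finset.mem_singleton] at ha
    rcases ha with rfl | rfl
    · simp
    · simp
  · rintro ⟨p, q⟩ hpq hn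
    replace hpq := Finset.HasAntidiagonal.mem_antidiagonal.1 hpq
    dsimp only at hpq ⊢
    by_cases hp : p = 0
    · exfalso
      apply hn
      subst hp
      rw [zero_add] at hpq
      rw [hpq]
      simp
    by_cases hq : q = 0
    · exfalso
      apply hn
      subst hq
      rw [add_zero] at hpq
      rw [hpq]
      simp
    rcases mu_split d i hpq hp hq with h | h
    · rw [Bd_mem hx p h, zero_mul]
    · rw [Bd_mem hy q h, mul_zero]

/-- the linear map -/
noncomputable def L (F : Type*) [Field F] (d : ℕ) :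
    R6 F →ₗ[F] (Fin 2 ⊕ Fin (d + 1) → F) :=
  LinearMap.pi fun i => lcoeff F (mu d i)

lemma L_apply (d : ℕ) (x : R6 F) (i : Fin 2 ⊕ Fin (d + 1)) : L F d x i = coeff (mu d i) x := rfl

lemma L_mul {d : ℕ} {x y : R6 F} (hx : x ∈ A F d) (hy : y ∈ A F d) :
    L F d (x * y) = coeff 0 x • L F d y + coeff 0 y • L F d x := by
  funext i
  rw [L_apply, coeff_mu_mul i hx hy]
  change _ = coeff 0 x * coeff (mu d i) y + coeff 0 y * coeff (mu d i) x
  ring

lemma L_C (d : ℕ) (c : F) : L F d (C c) = 0 := by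
  classical
  funext i
  rw [L_apply, coeff_C, if_neg (Ne.symm (mu_ne d i))]
  rfl

/-- the monomial `X 1 * (X 5 ^ i * X 2 ^ k)` -/
lemma mon_eq (i k : ℕ) : (X 1 * (X 5 ^ i * X 2 ^ k) : R6 F) =
    monomial (Finsupp.single 1 1 + (Finsupp.single 5 i + Finsupp.single 2 k)) 1 := by
  rw [X_pow_eq_monomial, X_pow_eq_monomial, X, monomial_mul, monomial_mul]
  simp

lemma C1_eq : C1 F = monomial (Finsupp.single 4 2) 1 + 4 * (X 3 * X 5) := by
  rw [C1, X_pow_eq_monomial]

lemma C2_eq : C2 F = monomial (Finsupp.single 1 1 + Finsupp.single 4 1) 1 +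
    2 * (X 0 * X 5 + X 3 * X 2) := by
  rw [C2, mul_comm (X 2) (X 3)]
  congr 1
  rw [X, X, monomial_mul, mul_one]

lemma mu_apply_zero (d : ℕ) (i : Fin 2 ⊕ Fin (d + 1)) : mu d i 0 = 0 := by
  rcases i with i | i
  · fin_cases i
    · change (Finsupp.single 4 2 : Fin 6 →₀ ℕ) 0 = 0
      simp
    · change (Finsupp.single 1 1 + Finsupp.single 4 1 : Fin 6 →₀ ℕ) 0 = 0
      simp
  · change (Finsupp.single 1 1 + (Finsupp.single 5 (i : ℕ) + Finsupp.single 2 (d - i)) :
      Fin 6 →₀ ℕ) 0 = 0
    simp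

lemma mu_apply_three (d : ℕ) (i : Fin 2 ⊕ Fin (d + 1)) : mu d i 3 = 0 := by
  rcases i with i | i
  · fin_cases i
    · change (Finsupp.single 4 2 : Fin 6 →₀ ℕ) 3 = 0
      simp
    · change (Finsupp.single 1 1 + Finsupp.single 4 1 : Fin 6 →₀ ℕ) 3 = 0
      simp
  · change (Finsupp.single 1 1 + (Finsupp.single 5 (i : ℕ) + Finsupp.single 2 (d - i)) :
      Fin 6 →₀ ℕ) 3 = 0
    simp

lemma mu_inj (d : ℕ) : Function.Injective (mu d) := by
  intro i j h
  rcases i with i | i <;> rcases j with j | j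
  · fin_cases i <;> fin_cases j
    · rfl
    · exfalso
      have := DFunLike.congr_fun h 1
      change (Finsupp.single 4 2 : Fin 6 →₀ ℕ) 1 =
        (Finsupp.single 1 1 + Finsupp.single 4 1 : Fin 6 →₀ ℕ) 1 at this
      simp at this
    · exfalso
      have := DFunLike.congr_fun h 1
      change (Finsupp.single 1 1 + Finsupp.single 4 1 : Fin 6 →₀ ℕ) 1 =
        (Finsupp.single 4 2 : Fin 6 →₀ ℕ) 1 at this
      simp at this
    · rfl
  · exfalso
    have h4 := DFunLike.congr_fun h 4
    fin_cases i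
    · change (Finsupp.single 4 2 : Fin 6 →₀ ℕ) 4 = (Finsupp.single 1 1 +
        (Finsupp.single 5 (j : ℕ) + Finsupp.single 2 (d - j)) : Fin 6 →₀ ℕ) 4 at h4
      simp at h4
    · change (Finsupp.single 1 1 + Finsupp.single 4 1 : Fin 6 →₀ ℕ) 4 = (Finsupp.single 1 1 +
        (Finsupp.single 5 (j : ℕ) + Finsupp.single 2 (d - j)) : Fin 6 →₀ ℕ) 4 at h4
      simp at h4
  · exfalso
    have h4 := DFunLike.congr_fun h 4
    fin_cases j
    · change (Finsupp.single 1 1 + (Finsupp.single 5 (i : ℕ) + Finsupp.single 2 (d - i)) :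
        Fin 6 →₀ ℕ) 4 = (Finsupp.single 4 2 : Fin 6 →₀ ℕ) 4 at h4
      simp at h4
    · change (Finsupp.single 1 1 + (Finsupp.single 5 (i : ℕ) + Finsupp.single 2 (d - i)) :
        Fin 6 →₀ ℕ) 4 = (Finsupp.single 1 1 + Finsupp.single 4 1 : Fin 6 →₀ ℕ) 4 at h4
      simp at h4
  · have h5 := DFunLike.congr_fun h 5
    change (Finsupp.single 1 1 + (Finsupp.single 5 (i : ℕ) + Finsupp.single 2 (d - i)) :
      Fin 6 →₀ ℕ) 5 = (Finsupp.single 1 1 + (Finsupp.single 5 (j : ℕ) +
        Finsupp.single 2 (d - j)) : Fin 6 →₀ ℕ) 5 at h5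
    simp at h5
    exact congrArg Sum.inr (Fin.ext h5)

lemma L_gen (d : ℕ) (i : Fin 2 ⊕ Fin (d + 1)) : L F d (gen F d i) = Pi.single i 1 := by
  classical
  have key : ∀ (j : Fin 2 ⊕ Fin (d + 1)),
      coeff (mu d j) (gen F d i) = coeff (mu d j) (monomial (mu d i) (1 : F)) := by
    intro j
    rcases i with i | i
    · fin_cases i
      · change coeff (mu d j) (C1 F) = coeff (mu d j) (monomial (Finsupp.single 4 2) (1 : F))
        rw [C1_eq, coeff_add, coeff_ofNat_mul, coeff_X_mul_zero 3 _ (mu_apply_three d j), mul_zero,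
          add_zero]
      · change coeff (mu d j) (C2 F) = coeff (mu d j)
          (monomial (Finsupp.single 1 1 + Finsupp.single 4 1) (1 : F))
        rw [C2_eq, coeff_add, coeff_ofNat_mul, coeff_add,
          coeff_X_mul_zero 0 _ (mu_apply_zero d j), coeff_X_mul_zero 3 _ (mu_apply_three d j),
          add_zero, mul_zero, add_zero]
    · change coeff (mu d j) (X 1 * (X 5 ^ (i : ℕ) * X 2 ^ (d - i))) = _
      rw [mon_eq]
      rfl
  funext j
  rw [L_apply, key, coeff_monomial, Pi.single_apply]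
  by_cases h : i = j
  · rw [h, if_pos rfl, if_pos rfl]
  · rw [if_neg (fun h' => h (mu_inj d h')), if_neg (Ne.symm h)]

/-- a generating family has at least `d + 3` members -/
lemma le_of_gens {d m : ℕ} (a : Fin m → A F d) (h : Algebra.adjoin F (Set.range a) = ⊤) :
    d + 3 ≤ m := by
  classical
  let v : Fin m → (Fin 2 ⊕ Fin (d + 1) → F) := fun k => L F d (a k : R6 F)
  have hall : ∀ x : A F d, L F d (x : R6 F) ∈ Submodule.span F (Set.range v) := by
    intro x
    have hx : x ∈ Algebra.adjoin F (Set.range a) := by rw [h]; trivial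
    induction hx using Algebra.adjoin_induction with
    | mem x hx =>
      obtain ⟨k, rfl⟩ := hx
      exact Submodule.subset_span ⟨k, rfl⟩
    | algebraMap c =>
      have : ((algebraMap F (A F d) c : A F d) : R6 F) = C c := rfl
      rw [this, L_C]
      exact Submodule.zero_mem _
    | add x y _ _ hx hy =>
      rw [Subalgebra.coe_add, map_add]
      exact Submodule.add_mem _ hx hy
    | mul x y _ _ hx hy =>
      rw [Subalgebra.coe_mul, L_mul x.2 y.2]
      exact Submodule.add_mem _ (Submodule.smul_mem _ _ hy) (Submodule.smul_mem _ _ hx)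
  have htop : Submodule.span F (Set.range v) = ⊤ := by
    rw [eq_top_iff, ← (Pi.basisFun F (Fin 2 ⊕ Fin (d + 1))).span_eq, Submodule.span_le]
    rintro _ ⟨i, rfl⟩
    rw [Pi.basisFun_apply, ← L_gen]
    exact hall ⟨gen F d i, gen_mem d i⟩
  have h1 := finrank_range_le_card (R := F) v
  rw [Set.finrank, htop, finrank_top, Module.finrank_fintype_fun_eq_card] at h1
  simp only [Fintype.card_sum, Fintype.card_fin] at h1
  omega

/-- lifting a generating family to the subalgebra it generates -/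
lemma adjoin_top {B : Type*} [CommRing B] [Algebra F B] {ι κ : Type*} (v : ι → B)
    (a : κ → Algebra.adjoin F (Set.range v)) (h : ∀ i, ∃ k, (a k : B) = v i) :
    Algebra.adjoin F (Set.range a) = ⊤ := by
  rw [eq_top_iff]
  rintro ⟨x, hx⟩ -
  induction hx using Algebra.adjoin_induction with
  | mem x hx =>
    obtain ⟨i, rfl⟩ := hx
    obtain ⟨k, hk⟩ := h i
    exact Algebra.subset_adjoin ⟨k, Subtype.ext hk⟩
  | algebraMap c => exact Subalgebra.algebraMap_mem _ c
  | add x y hx hy hx' hy' => exact Subalgebra.add_mem _ hx' hy'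
  | mul x y hx hy hx' hy' => exact Subalgebra.mul_mem _ hx' hy'

lemma exists_gens (d : ℕ) : ∃ a : Fin (d + 3) → A F d, Algebra.adjoin F (Set.range a) = ⊤ := by
  have hc : Fintype.card (Fin 2 ⊕ Fin (d + 1)) = d + 3 := by
    simp only [Fintype.card_sum, Fintype.card_fin]
    omega
  obtain ⟨e⟩ : Nonempty (Fin (d + 3) ≃ (Fin 2 ⊕ Fin (d + 1))) :=
    ⟨(Fintype.equivFinOfCardEq hc).symm⟩
  exact ⟨fun k => ⟨gen F d (e k), gen_mem d (e k)⟩, adjoin_top (gen F d) _ fun i =>
    ⟨e.symm i, congrArg (gen F d) (e.apply_symm_apply i)⟩⟩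

lemma minGens (d : ℕ) : MinGens F (A F d) (d + 3) :=
  ⟨exists_gens d, fun _ a h => le_of_gens a h⟩

lemma MinGens.congr {B B' : Type*} [CommRing B] [Algebra F B] [CommRing B'] [Algebra F B']
    (e : B ≃ₐ[F] B') {n : ℕ} (h : MinGens F B n) : MinGens F B' n := by
  obtain ⟨⟨a, ha⟩, h2⟩ := h
  have key' : ∀ (m : ℕ) (b : Fin m → B'), Algebra.adjoin F (Set.range b) = ⊤ →
      Algebra.adjoin F (Set.range (fun k => e.symm (b k))) = ⊤ := by
    intro m b hb
    have h1 : Set.range (fun k => e.symm (b k)) = (e.symm : B' →ₐ[F] B) '' Set.range b := by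
      rw [← Set.range_comp]; rfl
    rw [h1, ← AlgHom.map_adjoin, hb, Algebra.map_top]
    exact (AlgHom.range_eq_top _).2 e.symm.surjective
  refine ⟨⟨fun k => e (a k), ?_⟩, fun m b hb => h2 m _ (key' m b hb)⟩
  have h1 : Set.range (fun k => e (a k)) = (e : B →ₐ[F] B') '' Set.range a := by
    rw [← Set.range_comp]; rfl
  rw [h1, ← AlgHom.map_adjoin, ha, Algebra.map_top]
  exact (AlgHom.range_eq_top _).2 e.surjective

lemma MinGens.unique {B : Type*} [CommRing B] [Algebra F B] {n m : ℕ} (h : MinGens F B n)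
    (h' : MinGens F B m) : n = m := by
  obtain ⟨⟨a, ha⟩, h2⟩ := h
  obtain ⟨⟨b, hb⟩, h3⟩ := h'
  exact le_antisymm (h2 m b hb) (h3 n a ha)

end Pool.Agent.Y76.PC
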