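import Pool.Agent.Y76.PC.VMax

/-!
# The subalgebras generated by `C1`, `C2` and the `εf^i f^(d-i) h`
-/

set_option autoImplicit false

namespace Pool.Agent.Y76.PC

open MvPolynomial Pool.Agent.H307R3.PC.Core

variable {F : Type*} [Field F]

/-- the generators -/
noncomputable def gen (F : Type*) [Field F] (d : ℕ) : Fin 2 ⊕ Fin (d + 1) → R6 F :=
  Sum.elim ![C1 F, C2 F] fun i => X 1 * (X 5 ^ (i : ℕ) * X 2 ^ (d - i))

/-- the subalgebra -/
noncomputable def A (F : Type*) [Field F] (d : ℕ) : Subalgebra F (R6 F) :=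
  Algebra.adjoin F (Set.range (gen F d))

lemma gen_mem (d : ℕ) (i : Fin 2 ⊕ Fin (d + 1)) : gen F d i ∈ A F d :=
  Algebra.subset_adjoin ⟨i, rfl⟩

lemma C1_mem (d : ℕ) : C1 F ∈ A F d := gen_mem d (Sum.inl 0)
lemma C2_mem (d : ℕ) : C2 F ∈ A F d := gen_mem d (Sum.inl 1)

lemma mon_mem (d i k : ℕ) (h : i + k = d) : X 1 * (X 5 ^ i * X 2 ^ k) ∈ A F d := by
  obtain rfl : k = d - i := by omega
  exact gen_mem d (Sum.inr ⟨i, by omega⟩)

lemma mono_mem (d j : ℕ) : ∀ m0 m1 : ℕ, m0 + m1 = d * j →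
    X 1 ^ j * (X 5 ^ m0 * X 2 ^ m1) ∈ A F d := by
  induction j with
  | zero =>
    intro m0 m1 h
    obtain rfl : m0 = 0 := by omega
    obtain rfl : m1 = 0 := by omega
    simp only [pow_zero, mul_one]
    exact (A F d).one_mem
  | succ j ih =>
    intro m0 m1 h
    rw [mul_add, mul_one] at h
    obtain ⟨i, k, m0', m1', hik, rfl, rfl⟩ : ∃ i k m0' m1', i + k = d ∧ m0 = i + m0' ∧
        m1 = k + m1' := by
      by_cases hm : d ≤ m0
      · exact ⟨d, 0, m0 - d, m1, by omega, by omega, by omega⟩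
      · exact ⟨m0, d - m0, 0, m1 - (d - m0), by omega, by omega, by omega⟩
    have h1 : X 1 ^ (j + 1) * (X 5 ^ (i + m0') * X 2 ^ (k + m1')) =
        (X 1 * (X 5 ^ i * X 2 ^ k)) * (X 1 ^ j * (X 5 ^ m0' * X 2 ^ m1') : R6 F) := by
      rw [pow_succ, pow_add, pow_add]
      ring
    rw [h1]
    exact (A F d).mul_mem (mon_mem d i k hik) (ih m0' m1' (by omega))

lemma Z_mem [CharZero F] [IsAlgClosed F] (d j : ℕ) (z : R6 F) (hz : Z ((d : F) * (j : F)) z) :
    X 1 ^ j * z ∈ A F d := by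
  classical
  obtain ⟨z5, z2, z1⟩ := hz
  obtain ⟨q, rfl⟩ := kernel z z5 z2
  have h2 : (2 : F) ≠ 0 := two_ne_zero
  have hq : X 0 * pderiv 0 q + X 1 * pderiv 1 q = C ((d : F) * (j : F)) * q := by
    have h1 : Theta F (-2 * (X 0 * pderiv 0 q + X 1 * pderiv 1 q) -
        -2 * (C ((d : F) * (j : F)) * q)) = 0 := by
      have h3 : Theta F (C ((d : F) * (j : F))) = C ((d : F) * (j : F)) := by
        rw [Theta, aeval_C]; rfl
      have h4 : Theta F (-2 * (C ((d : F) * (j : F)) * q)) =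
          -2 * (C ((d : F) * (j : F)) * Theta F q) := by
        rw [map_mul, map_mul, map_neg, map_ofNat, h3]
      have h5 : (C (-2 * ((d : F) * (j : F))) : R6 F) = -2 * C ((d : F) * (j : F)) := by
        rw [C_mul, C_neg2]
      rw [map_sub, ← D1_Theta, z1, h4, h5]
      ring
    have h4 := Theta_inj _ h1
    have h5 : (-2 : MvPolynomial (Fin 4) F) * (X 0 * pderiv 0 q + X 1 * pderiv 1 q -
        C ((d : F) * (j : F)) * q) = 0 := by linear_combination h4
    exact sub_eq_zero.1 ((mul_eq_zero.1 h5).resolve_left (neg_ne_zero.2 two_ne_zero))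
  have hm : ∀ m ∈ q.support, m 0 + m 1 = d * j := by
    intro m hm
    have h1 := congrArg (coeff m) hq
    rw [coeff_add, coeff_X_pderiv, coeff_X_pderiv, coeff_C_mul, ← add_mul] at h1
    have h3 := mul_right_cancel₀ (mem_support_iff.1 hm) h1
    exact_mod_cast h3
  rw [q.as_sum, map_sum, Finset.mul_sum]
  apply Subalgebra.sum_mem
  intro m hmem
  have h1 : Theta F (monomial m (coeff m q)) =
      C (coeff m q) * (X 5 ^ m 0 * X 2 ^ m 1 * (C1 F ^ m 2 * C2 F ^ m 3)) := by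
    rw [Theta, aeval_monomial, Finsupp.prod_fintype _ _ (fun i => pow_zero _), Fin.prod_univ_four]
    simp only [Matrix.cons_val, Matrix.cons_val_zero, Matrix.cons_val_one, algebraMap_eq]
    ring
  rw [h1]
  have h3 : X 1 ^ j * (C (coeff m q) * (X 5 ^ m 0 * X 2 ^ m 1 * (C1 F ^ m 2 * C2 F ^ m 3))) =
      C (coeff m q) * (X 1 ^ j * (X 5 ^ m 0 * X 2 ^ m 1)) * (C1 F ^ m 2 * C2 F ^ m 3) := by ring
  rw [h3]
  refine (A F d).mul_mem ((A F d).mul_mem ((A F d).algebraMap_mem _)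
    (mono_mem d j _ _ (hm m hmem)))
    ((A F d).mul_mem ((A F d).pow_mem (C1_mem d) _) ((A F d).pow_mem (C2_mem d) _))

lemma M_le [CharZero F] [IsAlgClosed F] (d : ℕ) :
    M (d : F) 0 ≤ Subalgebra.toSubmodule (A F d) := by
  rw [M, Submodule.span_le]
  rintro _ ⟨j, z, hz, rfl⟩
  rw [zero_add] at hz
  exact Z_mem d j z hz

lemma mem_A_of_V [CharZero F] [IsAlgClosed F] {d : ℕ} (hd : d ≠ 0) {g : R6 F}
    (h : V (d : F) 0 g) : g ∈ A F d :=
  M_le d (mem_M (Nat.cast_ne_zero.2 hd) (g.totalDegree + 1) 0 g (Or.inr (Nat.lt_succ_self _)) h)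

lemma C_two_zero (δ : F) : (C (2 * δ * ((0 : ℕ) : F)) : R6 F) = 0 := by
  rw [Nat.cast_zero, mul_zero, C_0]

lemma V0_iff (δ : F) (g : R6 F) : V δ 0 g ↔ C δ * X 1 * D F 5 g + X 5 * D F 1 g = 0 ∧
    C δ * X 1 * D F 2 g + X 2 * D F 1 g = 0 := by
  rw [V, C_two_zero, zero_mul, add_zero]

lemma pb_pow5 (i : ℕ) (g : R6 F) : X 5 * pb F (X 5 ^ i) g = (i : R6 F) * X 5 ^ i * D F 5 g := by
  induction i with
  | zero =>
    have h : pb F (1 : R6 F) g = 0 := by
      have := pb_alg (F := F) 1 g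
      rwa [map_one] at this
    rw [pow_zero, h]; simp
  | succ i ih =>
    rw [pow_succ, pb_leibniz', pb_X]
    push_cast
    linear_combination X 5 * ih

lemma pb_pow2 (i : ℕ) (g : R6 F) : X 2 * pb F (X 2 ^ i) g = (i : R6 F) * X 2 ^ i * D F 2 g := by
  induction i with
  | zero =>
    have h : pb F (1 : R6 F) g = 0 := by
      have := pb_alg (F := F) 1 g
      rwa [map_one] at this
    rw [pow_zero, h]; simp
  | succ i ih =>
    rw [pow_succ, pb_leibniz', pb_X]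
    push_cast
    linear_combination X 2 * ih

lemma C_natd (d : ℕ) : (C (d : F) : R6 F) = (d : R6 F) := map_natCast C d

/-- elements satisfying the equations commute with the generators -/
lemma pb_mon [CharZero F] {d i k : ℕ} (hd : d ≠ 0) (h : i + k = d) {g : R6 F}
    (hV : V (d : F) 0 g) : pb F (X 1 * (X 5 ^ i * X 2 ^ k)) g = 0 := by
  rw [V0_iff] at hV
  obtain ⟨h1, h2⟩ := hV
  have h5 := pb_pow5 i g
  have h6 := pb_pow2 k g
  have hne : (C (d : F) * (X 5 * X 2) : R6 F) ≠ 0 := by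
    refine mul_ne_zero ?_ (mul_ne_zero (X_ne_zero _) (X_ne_zero _))
    rw [Ne, C_eq_zero]
    exact Nat.cast_ne_zero.2 hd
  have hdk : (C (d : F) : R6 F) = (i : R6 F) + (k : R6 F) := by
    rw [C_natd, ← h]; push_cast; rfl
  refine (mul_eq_zero.1 ?_).resolve_left hne
  rw [pb_leibniz', pb_leibniz', pb_X]
  linear_combination (C (d : F) * X 1 * X 5 * X 5 ^ i) * h6 + (C (d : F) * X 1 * X 2 * X 2 ^ k) * h5
    + (X 5 ^ (i + 1) * k * X 2 ^ k) * h2 + (X 2 ^ (k + 1) * i * X 5 ^ i) * h1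
    + (X 5 ^ (i + 1) * X 2 ^ (k + 1) * D F 1 g) * hdk

/-- the equations follow from commuting with two of the generators -/
lemma V_of_comm {d : ℕ} {g : R6 F} (ha : pb F (X 1 * (X 5 ^ d * X 2 ^ 0)) g = 0)
    (hc : pb F (X 1 * (X 5 ^ 0 * X 2 ^ d)) g = 0) : V (d : F) 0 g := by
  rw [V0_iff]
  have h5 := pb_pow5 d g
  have h6 := pb_pow2 d g
  rw [pow_zero, mul_one, pb_leibniz', pb_X] at ha
  rw [pow_zero, one_mul, pb_leibniz', pb_X] at hc
  refine ⟨?_, ?_⟩
  · have h7 : X 5 ^ d * (C (d : F) * X 1 * D F 5 g + X 5 * D F 1 g) = 0 := by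
      rw [C_natd]
      linear_combination X 5 * ha - X 1 * h5
    exact (mul_eq_zero.1 h7).resolve_left (pow_ne_zero _ (X_ne_zero _))
  · have h7 : X 2 ^ d * (C (d : F) * X 1 * D F 2 g + X 2 * D F 1 g) = 0 := by
      rw [C_natd]
      linear_combination X 2 * hc - X 1 * h6
    exact (mul_eq_zero.1 h7).resolve_left (pow_ne_zero _ (X_ne_zero _))

/-- every element commuting with `A` lies in `A` -/
theorem maximal [CharZero F] [IsAlgClosed F] {d : ℕ} (hd : d ≠ 0) {g : R6 F}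
    (h : ∀ x ∈ A F d, pb F x g = 0) : g ∈ A F d :=
  mem_A_of_V hd (V_of_comm (h _ (mon_mem d d 0 (by omega))) (h _ (mon_mem d 0 d (by omega))))

lemma V_mul {δ : F} {g g' : R6 F} (h : V δ 0 g) (h' : V δ 0 g') : V δ 0 (g * g') := by
  rw [V0_iff] at *
  obtain ⟨h1, h2⟩ := h
  obtain ⟨h1', h2'⟩ := h'
  refine ⟨?_, ?_⟩
  · rw [D_mul, D_mul]
    linear_combination g' * h1 + g * h1'
  · rw [D_mul, D_mul]
    linear_combination g' * h2 + g * h2'

lemma V_alg (δ c : F) : V δ 0 (algebraMap F (R6 F) c) := by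
  have : algebraMap F (R6 F) c = C c := rfl
  rw [this, V0_iff]
  refine ⟨?_, ?_⟩
  · rw [D_C, D_C]; ring
  · rw [D_C, D_C]; ring

lemma D1_pow5 (i : ℕ) : D F 1 (X 5 ^ i) = -2 * (i : R6 F) * X 5 ^ i := by
  induction i with
  | zero => simp
  | succ i ih => rw [pow_succ, D_mul, ih, D1_5]; push_cast; ring

lemma D1_pow2 (i : ℕ) : D F 1 (X 2 ^ i) = -2 * (i : R6 F) * X 2 ^ i := by
  induction i with
  | zero => simp
  | succ i ih => rw [pow_succ, D_mul, ih, D1_2]; push_cast; ring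

lemma D_pow0 (n m i : Fin 6) (h : D F n (X m) = 0) (k : ℕ) : D F n (X m ^ k) = 0 := by
  rw [Derivation.leibniz_pow, h]
  simp

lemma V_mon {d i k : ℕ} (h : i + k = d) : V (d : F) 0 (X 1 * (X 5 ^ i * X 2 ^ k)) := by
  have hdk : (C (d : F) : R6 F) = (i : R6 F) + (k : R6 F) := by
    rw [C_natd, ← h]; push_cast; rfl
  rw [V0_iff, hdk]
  have a1 : D F 1 (X 1 * (X 5 ^ i * X 2 ^ k)) =
      -2 * ((i : R6 F) + (k : R6 F)) * (X 1 * (X 5 ^ i * X 2 ^ k)) := by
    rw [D_mul, D_mul, D1_1, D1_pow5, D1_pow2]; ring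
  have a5 : D F 5 (X 1 * (X 5 ^ i * X 2 ^ k)) = 2 * X 5 * (X 5 ^ i * X 2 ^ k) := by
    rw [D_mul, D_mul, D5_1, D_pow0 5 5 0 D5_5, D_pow0 5 2 0 D5_2]; ring
  have a2 : D F 2 (X 1 * (X 5 ^ i * X 2 ^ k)) = 2 * X 2 * (X 5 ^ i * X 2 ^ k) := by
    rw [D_mul, D_mul, D2_1, D_pow0 2 5 0 D2_5, D_pow0 2 2 0 D2_2]; ring
  refine ⟨?_, ?_⟩
  · rw [a5, a1]; ring
  · rw [a2, a1]; ring

lemma V_gen (d : ℕ) (i : Fin 2 ⊕ Fin (d + 1)) : V (d : F) 0 (gen F d i) := by
  rcases i with i | i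
  · fin_cases i
    · change V (d : F) 0 (C1 F)
      rw [V0_iff, D_C1, D_C1, D_C1]
      exact ⟨by ring, by ring⟩
    · change V (d : F) 0 (C2 F)
      rw [V0_iff, D_C2, D_C2, D_C2]
      exact ⟨by ring, by ring⟩
  · exact V_mon (by have := i.2; omega)

lemma V_of_mem {d : ℕ} {g : R6 F} (hg : g ∈ A F d) : V (d : F) 0 g := by
  induction hg using Algebra.adjoin_induction with
  | mem x hx =>
    obtain ⟨i, rfl⟩ := hx
    exact V_gen d i
  | algebraMap c => exact V_alg _ c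
  | add x y _ _ hx hy => exact hx.add hy
  | mul x y _ _ hx hy => exact V_mul hx hy

/-- `A` is commutative for the bracket -/
theorem commutative [CharZero F] {d : ℕ} (hd : d ≠ 0) :
    ∀ x ∈ A F d, ∀ y ∈ A F d, pb F x y = 0 := by
  intro x hx y hy
  have hV := V_of_mem hy
  induction hx using Algebra.adjoin_induction with
  | mem x hx =>
    obtain ⟨i, rfl⟩ := hx
    rcases i with i | i
    · fin_cases i
      · change pb F (C1 F) y = 0
        rw [pb_skew, pb_C1, neg_zero]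
      · change pb F (C2 F) y = 0
        rw [pb_skew, pb_C2, neg_zero]
    · exact pb_mon hd (by have := i.2; omega) hV
  | algebraMap c => exact pb_alg c y
  | add x x' _ _ hx hx' => rw [map_add, LinearMap.add_apply, hx, hx', add_zero]
  | mul x x' _ _ hx hx' => rw [pb_leibniz', hx, hx', mul_zero, zero_mul, add_zero]

/-! ### transcendence degree -/

/-- a transcendence basis -/
noncomputable def tb (F : Type*) [Field F] (d : ℕ) : Fin 4 → A F d :=
  ![⟨C1 F, C1_mem d⟩, ⟨C2 F, C2_mem d⟩, ⟨X 1 * (X 5 ^ d * X 2 ^ 0), mon_mem d d 0 (by omega)⟩,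
    ⟨X 1 * (X 5 ^ 0 * X 2 ^ d), mon_mem d 0 d (by omega)⟩]

lemma tb_indep [CharZero F] [IsAlgClosed F] {d : ℕ} (hd : d ≠ 0) :
    AlgebraicIndependent F (tb F d) := by
  have h2 : (2 : F) ≠ 0 := two_ne_zero
  have hval : ∀ i, ((tb F d i : A F d) : R6 F) =
      ![C1 F, C2 F, X 1 * (X 5 ^ d * X 2 ^ 0), X 1 * (X 5 ^ 0 * X 2 ^ d)] i := by
    intro i; fin_cases i <;> rfl
  have hR : AlgebraicIndependent F (![C1 F, C2 F, X 1 * (X 5 ^ d * X 2 ^ 0),
      X 1 * (X 5 ^ 0 * X 2 ^ d)] : Fin 4 → R6 F) := by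
    rw [algebraicIndependent_iff]
    intro q hq
    have hev : ∀ x : Fin 6 → F, eval ![x 4 ^ 2 + 4 * (x 3 * x 5),
        x 1 * x 4 + 2 * (x 0 * x 5 + x 2 * x 3), x 1 * (x 5 ^ d * x 2 ^ 0),
        x 1 * (x 5 ^ 0 * x 2 ^ d)] q = 0 := by
      intro x
      have h : ((aeval x : R6 F →ₐ[F] F).comp
          (aeval ![C1 F, C2 F, X 1 * (X 5 ^ d * X 2 ^ 0), X 1 * (X 5 ^ 0 * X 2 ^ d)])) =
          aeval ![x 4 ^ 2 + 4 * (x 3 * x 5),
            x 1 * x 4 + 2 * (x 0 * x 5 + x 2 * x 3), x 1 * (x 5 ^ d * x 2 ^ 0),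
            x 1 * (x 5 ^ 0 * x 2 ^ d)] := by
        apply MvPolynomial.algHom_ext
        intro i
        rw [AlgHom.comp_apply, aeval_X, aeval_X]
        fin_cases i <;> simp [C1, C2]
      have h' := congrArg (fun f => f q) h
      simp only [AlgHom.comp_apply, hq, map_zero] at h'
      rw [aeval_eq_eval] at h'
      exact h'.symm
    have key : X 2 * q = 0 := by
      apply MvPolynomial.funext
      intro y
      rw [map_mul, eval_X, map_zero]
      by_cases hy : y 2 = 0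
      · rw [hy, zero_mul]
      · obtain ⟨r, hr⟩ := IsAlgClosed.exists_pow_nat_eq (y 2) (n := d) (Nat.pos_of_ne_zero hd)
        obtain ⟨t, ht⟩ := IsAlgClosed.exists_pow_nat_eq (y 3) (n := d) (Nat.pos_of_ne_zero hd)
        have hr0 : r ≠ 0 := by
          rintro rfl
          exact hy (by rw [← hr, zero_pow hd])
        have h1 := hev ![(y 1 / 2 - t * (y 0 / (4 * r))) / r, 1, t, y 0 / (4 * r), 0, r]
        simp only [Matrix.cons_val, Matrix.cons_val_zero, Matrix.cons_val_one] at h1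
        have e0 : (0 : F) ^ 2 + 4 * (y 0 / (4 * r) * r) = y 0 := by field_simp; ring
        have e1 : 1 * 0 + 2 * ((y 1 / 2 - t * (y 0 / (4 * r))) / r * r + t * (y 0 / (4 * r))) =
            y 1 := by field_simp; ring
        have h3 : ![y 0, y 1, y 2, y 3] = y := by
          funext i; fin_cases i <;> rfl
        rw [e0, e1, pow_zero, pow_zero, mul_one, one_mul, one_mul, one_mul, hr, ht, h3] at h1
        rw [h1, mul_zero]
    exact (mul_eq_zero.1 key).resolve_left (X_ne_zero _)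
  have hcomp : (A F d).val ∘ tb F d =
      ![C1 F, C2 F, X 1 * (X 5 ^ d * X 2 ^ 0), X 1 * (X 5 ^ 0 * X 2 ^ d)] := by
    funext i
    exact hval i
  rw [← hcomp] at hR
  exact hR.of_comp (A F d).val

lemma tb_basis [CharZero F] [IsAlgClosed F] {d : ℕ} (hd : d ≠ 0) :
    IsTranscendenceBasis F (tb F d) := by
  rw [(tb_indep hd).isTranscendenceBasis_iff_isAlgebraic]
  set B := Algebra.adjoin F (Set.range (tb F d)) with hB
  have hmem : ∀ i, tb F d i ∈ B := fun i => Algebra.subset_adjoin ⟨i, rfl⟩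
  let C' : Subalgebra F (A F d) := (integralClosure B (A F d)).restrictScalars F
  have hC : ∀ x : A F d, x ∈ C' ↔ IsIntegral B x := fun x => Iff.rfl
  have hin : ∀ i, tb F d i ∈ C' := fun i =>
    (hC _).2 (isIntegral_algebraMap (R := B) (x := (⟨tb F d i, hmem i⟩ : B)))
  have hle : A F d ≤ C'.map (A F d).val := by
    refine Algebra.adjoin_le ?_
    rintro _ ⟨i, rfl⟩
    rcases i with i | i
    · fin_cases i
      · exact ⟨_, hin 0, rfl⟩
      · exact ⟨_, hin 1, rfl⟩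
    · have h2 : (⟨gen F d (Sum.inr i), gen_mem d _⟩ : A F d) ^ d =
          tb F d 2 ^ (i : ℕ) * tb F d 3 ^ (d - i) := by
        apply Subtype.ext
        change (X 1 * (X 5 ^ (i : ℕ) * X 2 ^ (d - i))) ^ d =
          (X 1 * (X 5 ^ d * X 2 ^ 0)) ^ (i : ℕ) * (X 1 * (X 5 ^ 0 * X 2 ^ d) : R6 F) ^ (d - i)
        have hi : (i : ℕ) + (d - i) = d := by have := i.2; omega
        have h3 : (X 1 : R6 F) ^ d = X 1 ^ (i : ℕ) * X 1 ^ (d - i) := by rw [← pow_add, hi]
        simp only [mul_pow, ← pow_mul, pow_zero, one_pow, h3, mul_comm d, zero_mul]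
        ring
      have h1 : IsIntegral B ((⟨gen F d (Sum.inr i), gen_mem d _⟩ : A F d) ^ d) := by
        rw [h2]
        exact (((hC _).1 (hin 2)).pow _).mul (((hC _).1 (hin 3)).pow _)
      exact ⟨⟨gen F d (Sum.inr i), gen_mem d _⟩,
        (hC _).2 (IsIntegral.of_pow (Nat.pos_of_ne_zero hd) h1), rfl⟩
  have hint : ∀ x : A F d, IsIntegral B x := by
    intro x
    obtain ⟨y, hy, hyx⟩ := hle x.2
    have : y = x := Subtype.ext hyx
    rw [← this]
    exact (hC _).1 hy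
  exact ⟨fun x => (hint x).isAlgebraic⟩

lemma trdeg_A [CharZero F] [IsAlgClosed F] {d : ℕ} (hd : d ≠ 0) :
    Algebra.trdeg F (A F d) = 4 := by
  have h := (tb_basis (F := F) hd).lift_cardinalMk_eq_trdeg
  simp only [Cardinal.mk_fin, Cardinal.lift_natCast, Cardinal.lift_id'] at h
  rw [← h]
  norm_num

end Pool.Agent.Y76.PC
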