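import Pool.Agent.H307R3.PC.NonPoly

/-!
# The centraliser of the elements `h · a`, `a` a form of degree `d` in `f`, `εf`
-/

set_option autoImplicit false

namespace Pool.Agent.Y76.PC

open MvPolynomial Pool.Agent.H307R3.PC.Core

variable {F : Type*} [Field F]

/-- the equations defining the centraliser, twisted by `s` -/
def V (δ : F) (s : ℕ) (g : R6 F) : Prop :=
  C δ * X 1 * D F 5 g + X 5 * (D F 1 g + C (2 * δ * s) * g) = 0 ∧
    C δ * X 1 * D F 2 g + X 2 * (D F 1 g + C (2 * δ * s) * g) = 0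

/-- elements of the kernel of weight `-2 c` -/
def Z (c : F) (z : R6 F) : Prop :=
  D F 5 z = 0 ∧ D F 2 z = 0 ∧ D F 1 z = C (-2 * c) * z

lemma V.add {δ : F} {s : ℕ} {g g' : R6 F} (h : V δ s g) (h' : V δ s g') : V δ s (g + g') := by
  obtain ⟨h1, h2⟩ := h
  obtain ⟨h1', h2'⟩ := h'
  refine ⟨?_, ?_⟩
  · simp only [map_add]; linear_combination h1 + h1'
  · simp only [map_add]; linear_combination h2 + h2'

lemma V.smul {δ : F} {s : ℕ} {g : R6 F} (c : F) (h : V δ s g) : V δ s (c • g) := by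
  obtain ⟨h1, h2⟩ := h
  rw [smul_eq_C_mul]
  refine ⟨?_, ?_⟩
  · simp only [D_Cmul]; linear_combination C c * h1
  · simp only [D_Cmul]; linear_combination C c * h2

lemma V.zero (δ : F) (s : ℕ) : V δ s (0 : R6 F) := by
  refine ⟨?_, ?_⟩ <;> simp

lemma V.sub {δ : F} {s : ℕ} {g g' : R6 F} (h : V δ s g) (h' : V δ s g') : V δ s (g - g') := by
  have := h.add (h'.smul (-1))
  rwa [neg_one_smul, ← sub_eq_add_neg] at this

lemma C_succ (δ : F) (s : ℕ) :
    (C (2 * δ * ((s + 1 : ℕ) : F)) : R6 F) = C (2 * δ * (s : F)) + 2 * C δ := by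
  have : (2 : R6 F) = C 2 := rfl
  rw [this, ← C_mul, ← C_add]
  congr 1
  push_cast
  ring

/-- passing from `g` to `K` -/
lemma step {δ : F} (hδ : δ ≠ 0) {s : ℕ} {g : R6 F} (h : V δ s g) :
    ∃ K : R6 F, D F 1 g + C (2 * δ * s) * g = -(C δ * (X 1 * K)) ∧ D F 5 g = X 5 * K ∧
      D F 2 g = X 2 * K ∧ V δ (s + 1) K := by
  have hne : (C δ : R6 F) ≠ 0 := by rwa [Ne, C_eq_zero]
  obtain ⟨h1, h2⟩ := h
  have hdvd : X 1 ∣ X 5 * (D F 1 g + C (2 * δ * s) * g) :=
    ⟨-(C δ * D F 5 g), by linear_combination h1⟩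
  have hX : ¬ (X 1 : R6 F) ∣ X 5 := by
    rw [MvPolynomial.X_dvd_X]
    decide
  obtain ⟨K', hK'⟩ := ((X_prime (R := F) (i := (1 : Fin 6))).dvd_or_dvd hdvd).resolve_left hX
  have hC : (C δ : R6 F) * C δ⁻¹ = 1 := by
    rw [← C_mul, mul_inv_cancel₀ hδ, C_1]
  obtain ⟨K, hK⟩ : ∃ K, K = -(C δ⁻¹ * K') := ⟨_, rfl⟩
  have e1 : D F 1 g + C (2 * δ * s) * g = -(C δ * (X 1 * K)) := by
    rw [hK, hK']
    linear_combination (-(X 1 * K')) * hC
  have e5 : D F 5 g = X 5 * K := by
    have h3 : C δ * X 1 * (D F 5 g - X 5 * K) = 0 := by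
      rw [e1] at h1
      linear_combination h1
    exact sub_eq_zero.1 ((mul_eq_zero.1 h3).resolve_left (mul_ne_zero hne (X_ne_zero _)))
  have e2 : D F 2 g = X 2 * K := by
    have h3 : C δ * X 1 * (D F 2 g - X 2 * K) = 0 := by
      rw [e1] at h2
      linear_combination h2
    exact sub_eq_zero.1 ((mul_eq_zero.1 h3).resolve_left (mul_ne_zero hne (X_ne_zero _)))
  refine ⟨K, e1, e5, e2, ?_, ?_⟩
  · have h3 := comm15 g
    have h4 : D F 1 g = -(C δ * (X 1 * K)) - C (2 * δ * s) * g := by linear_combination e1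
    rw [h4, e5, D_mul, D1_5, map_sub, map_neg, D_Cmul, D_Cmul, D_mul, D5_1, e5] at h3
    rw [C_succ]
    linear_combination h3
  · have h3 := comm12 g
    have h4 : D F 1 g = -(C δ * (X 1 * K)) - C (2 * δ * s) * g := by linear_combination e1
    rw [h4, e2, D_mul, D1_2, map_sub, map_neg, D_Cmul, D_Cmul, D_mul, D2_1, e2] at h3
    rw [C_succ]
    linear_combination h3

lemma totalDegree_le (g : R6 F) (c : F) :
    (D F 1 g + C c * g).totalDegree ≤ g.totalDegree := by
  classical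
  apply totalDegree_le_of_support_subset
  intro m hm
  rw [mem_support_iff] at hm ⊢
  intro h0
  apply hm
  rw [coeff_add, coeff_D1, coeff_C_mul, h0, mul_zero, mul_zero, add_zero]

/-- the span of the `h^j z` with `z` of weight `-2 δ (s + j)` -/
noncomputable def M (δ : F) (s : ℕ) : Submodule F (R6 F) :=
  Submodule.span F {g | ∃ (j : ℕ) (z : R6 F), Z (δ * (s + j : ℕ)) z ∧ g = X 1 ^ j * z}

lemma C_id (δ : F) (s j : ℕ) : (C (-2 * (δ * ((s + (j + 1) : ℕ) : F))) : R6 F) =
    -C (2 * δ * (s : F)) - 2 * ((j : R6 F) + 1) * C δ := by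
  have h2 : (2 : R6 F) = C 2 := rfl
  have hj : (j : R6 F) = C (j : F) := (map_natCast C j).symm
  have h1 : (1 : R6 F) = C 1 := rfl
  rw [h2, hj, h1, ← C_add, ← C_mul, ← C_mul, ← C_neg, ← C_sub]
  congr 1
  push_cast
  ring

/-- solving the equation for `g` in terms of `K` -/
lemma solve [CharZero F] {δ : F} {s : ℕ} {K : R6 F} (hK : K ∈ M δ (s + 1)) :
    ∃ g ∈ M δ s, V δ s g ∧ D F 1 g + C (2 * δ * s) * g = -(C δ * (X 1 * K)) := by
  induction hK using Submodule.span_induction with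
  | mem K h =>
    obtain ⟨j, z, hz, rfl⟩ := h
    have hz' : Z (δ * ((s + (j + 1) : ℕ) : F)) z := by
      have : s + (j + 1) = s + 1 + j := by ring
      rw [this]
      exact hz
    obtain ⟨z5, z2, z1⟩ := hz'
    rw [C_id] at z1
    have hj : (2 * ((j : F) + 1)) ≠ 0 := by
      have : ((j : F) + 1) ≠ 0 := by
        have := Nat.cast_ne_zero (R := F).2 (Nat.succ_ne_zero j)
        push_cast at this
        exact this
      exact mul_ne_zero two_ne_zero this
    have hc : (C (2 * ((j : F) + 1))⁻¹ : R6 F) * (2 * ((j : R6 F) + 1)) = 1 := by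
      have h3 : (2 * ((j : R6 F) + 1)) = C (2 * ((j : F) + 1)) := by
        rw [C_mul, C_add, map_natCast, C_1]; rfl
      rw [h3, ← C_mul, inv_mul_cancel₀ hj, C_1]
    set c : F := (2 * ((j : F) + 1))⁻¹ with hcdef
    have hz' : Z (δ * ((s + (j + 1) : ℕ) : F)) z := ⟨z5, z2, by rw [C_id]; exact z1⟩
    have d1 : D F 1 (X 1 ^ (j + 1) * z) =
        (-C (2 * δ * (s : F)) - 2 * ((j : R6 F) + 1) * C δ) * (X 1 ^ (j + 1) * z) := by
      rw [D_mul, D_pow1, D1_1, z1]
      ring
    have d5 : D F 5 (X 1 ^ (j + 1) * z) = 2 * ((j : R6 F) + 1) * X 1 ^ j * X 5 * z := by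
      rw [D_mul, D_pow1, D5_1, z5, Nat.add_sub_cancel]
      push_cast
      ring
    have d2 : D F 2 (X 1 ^ (j + 1) * z) = 2 * ((j : R6 F) + 1) * X 1 ^ j * X 2 * z := by
      rw [D_mul, D_pow1, D2_1, z2, Nat.add_sub_cancel]
      push_cast
      ring
    refine ⟨c • (X 1 ^ (j + 1) * z), Submodule.smul_mem _ _ (Submodule.subset_span
      ⟨j + 1, z, hz', rfl⟩), V.smul c ⟨?_, ?_⟩, ?_⟩
    · rw [d1, d5]; ring
    · rw [d1, d2]; ring
    · rw [smul_eq_C_mul, D_Cmul, d1]
      linear_combination (-(C δ * X 1 ^ (j + 1) * z)) * hc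
  | zero => exact ⟨0, Submodule.zero_mem _, V.zero δ s, by simp⟩
  | add K K' _ _ hK hK' =>
    obtain ⟨g, hg, hV, he⟩ := hK
    obtain ⟨g', hg', hV', he'⟩ := hK'
    refine ⟨g + g', Submodule.add_mem _ hg hg', hV.add hV', ?_⟩
    rw [map_add]
    linear_combination he + he'
  | smul c K _ hK =>
    obtain ⟨g, hg, hV, he⟩ := hK
    refine ⟨c • g, Submodule.smul_mem _ _ hg, hV.smul c, ?_⟩
    rw [smul_eq_C_mul, smul_eq_C_mul, D_Cmul]
    linear_combination C c * he

lemma mem_M [CharZero F] {δ : F} (hδ : δ ≠ 0) (n : ℕ) : ∀ (s : ℕ) (g : R6 F),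
    g = 0 ∨ g.totalDegree < n → V δ s g → g ∈ M δ s := by
  have hne : (C δ : R6 F) ≠ 0 := by rwa [Ne, C_eq_zero]
  induction n with
  | zero =>
    intro s g hg _
    rcases hg with rfl | hg
    · exact Submodule.zero_mem _
    · omega
  | succ n ih =>
    intro s g hg hV
    by_cases hg0 : g = 0
    · rw [hg0]; exact Submodule.zero_mem _
    have hg' : g.totalDegree < n + 1 := hg.resolve_left hg0
    obtain ⟨K, e1, e5, e2, hVK⟩ := step hδ hV
    have hK : K ∈ M δ (s + 1) := by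
      apply ih (s + 1) K _ hVK
      by_cases hK0 : K = 0
      · exact Or.inl hK0
      · right
        have h1 := totalDegree_le g (2 * δ * s)
        have h3 : (C δ * (X 1 * K)).totalDegree = (X 1 * K).totalDegree := by
          rw [totalDegree_mul_of_isDomain hne (mul_ne_zero (X_ne_zero _) hK0), totalDegree_C,
            zero_add]
        rw [e1, totalDegree_neg, h3, totalDegree_mul_of_isDomain (X_ne_zero _) hK0,
          totalDegree_X] at h1
        omega
    obtain ⟨g', hg'M, hV', he'⟩ := solve hK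
    have hVd := hV.sub hV'
    have hd : D F 1 (g - g') + C (2 * δ * s) * (g - g') = 0 := by
      rw [map_sub]
      linear_combination e1 - he'
    have hZ : Z (δ * ((s + 0 : ℕ) : F)) (g - g') := by
      obtain ⟨v1, v2⟩ := hVd
      rw [hd, mul_zero, add_zero] at v1 v2
      refine ⟨(mul_eq_zero.1 v1).resolve_left (mul_ne_zero hne (X_ne_zero _)),
        (mul_eq_zero.1 v2).resolve_left (mul_ne_zero hne (X_ne_zero _)), ?_⟩
      have h5 : (C (-2 * (δ * ((s + 0 : ℕ) : F))) : R6 F) = -C (2 * δ * (s : F)) := by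
        rw [← C_neg]
        congr 1
        push_cast
        ring
      rw [h5]
      linear_combination hd
    have hmem : g - g' ∈ M δ s := Submodule.subset_span ⟨0, g - g', hZ, by rw [pow_zero, one_mul]⟩
    have : g = (g - g') + g' := by ring
    rw [this]
    exact Submodule.add_mem _ hmem hg'M

end Pool.Agent.Y76.PC
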